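import Pool.Agent.Helper18.PS.St

/-!
# Project PS, module PAI
-/

set_option autoImplicit false

namespace Pool.Agent.Helper27.PS

open Finset
open Nat (totient)
open Pool.Agent.Helper18.PS

/-- **Module PAI.** -/
theorem hPAI : StPAI := by
  intro z m p A B l hz hm hp hpm hD hl hzl hlA
  obtain ⟨hAB, hsq, hiff, heq⟩ := hD
  obtain ⟨A', rfl⟩ := hlA
  have hl2 : 2 < l := lt_of_le_of_lt hz hzl
  have hcop : Nat.Coprime l A' := (Nat.squarefree_mul_iff.1 hsq).1
  have htot : totient (l * A') = (l - 1) * totient A' := by
    rw [Nat.totient_mul hcop, Nat.totient_prime hl]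
  rw [htot] at heq
  have hl1 : 0 < l - 1 := by omega
  have hls : ¬ l ∣ sg m := ((hiff l hl).1 (Dvd.intro _ rfl)).2
  by_cases h2 : A' * B = 2
  · left
    have hp1 : p + 1 = 2 * l := by
      rw [← hAB]
      calc l * A' * B = l * (A' * B) := by ring
        _ = 2 * l := by rw [h2]; ring
    have hpe : p = 2 * l - 1 := by omega
    have hA' : A' ∣ 2 := Dvd.intro _ h2
    have hA2 : A' ≤ 2 := Nat.le_of_dvd (by norm_num) hA'
    refine ⟨m, l, hl, hpe ▸ hp, by rw [hpe], hpe ▸ hpm, hls, ?_⟩
    interval_cases A'
    · omega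
    · left
      have hB : B = 2 := by omega
      subst hB
      constructor
      · have h3 : ¬ (2 ∣ l * 1) := by
          rw [mul_one]
          intro h
          have := (Nat.prime_dvd_prime_iff_eq Nat.prime_two hl).1 h
          omega
        have h4 : ¬ (2 ∣ p + 1 ∧ ¬ 2 ∣ sg m) := fun h => h3 ((hiff 2 Nat.prime_two).2 h)
        rw [even_iff_two_dvd]
        by_contra h5
        exact h4 ⟨hp1 ▸ Dvd.intro _ rfl, h5⟩
      · rw [Nat.totient_one, mul_one] at heq
        obtain ⟨k, hk⟩ : ∃ k, l = k + 1 := ⟨l - 1, by omega⟩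
        rw [hk] at heq hl1
        rw [Nat.add_sub_cancel] at heq hl1
        have h3 : totient (sg m) * (2 * k) = totient m * (2 * k) := by
          nlinarith
        exact Nat.eq_of_mul_eq_mul_right (by omega) h3
    · right
      have hB : B = 1 := by omega
      subst hB
      constructor
      · have h3 : 2 ∣ l * 2 := Dvd.intro_left _ rfl
        have h4 := ((hiff 2 Nat.prime_two).1 h3).2
        rw [← Nat.not_even_iff_odd, even_iff_two_dvd]
        exact h4
      · rw [Nat.totient_two, mul_one] at heq
        obtain ⟨k, hk⟩ : ∃ k, l = k + 1 := ⟨l - 1, by omega⟩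
        rw [hk] at heq hl1
        rw [Nat.add_sub_cancel] at heq hl1
        have h3 : totient (sg m) * k = 2 * totient m * k := by
          nlinarith
        exact Nat.eq_of_mul_eq_mul_right hl1 h3
  · right
    refine ⟨m, A', B, l, hm, hzl, ?_, h2, ?_⟩
    · rw [show A' * l * B = l * A' * B by ring, hAB]
      ring
    · calc totient (sg m) * B * totient A' * (l - 1) + 2 * totient m
          = totient (sg m) * B * ((l - 1) * totient A') + 2 * totient m := by ring
        _ = totient m * (l * A') * B := heq
        _ = totient m * A' * B * l := by ring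

end Pool.Agent.Helper27.PS
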