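import Pool.Agent.Helper18.PS.St2

/-!
# Project PS, module SUM
-/

set_option autoImplicit false

namespace Pool.Agent.Helper27.PS

open Finset
open Pool.Agent.Helper18.PS

private lemma tele (K M : ℕ) (h : K ≤ M) :
    ∑ k ∈ Ico K M, 1 / (1 + (k : ℝ)) ^ 2 ≤ 2 / (1 + (K : ℝ)) - 2 / (1 + (M : ℝ)) := by
  induction M, h using Nat.le_induction with
  | base => simp
  | succ M h ih =>
    rw [sum_Ico_succ_top h]
    have hM : (0 : ℝ) ≤ (M : ℝ) := Nat.cast_nonneg _
    have h1 : 1 / (1 + (M : ℝ)) ^ 2 ≤ 2 / (1 + (M : ℝ)) - 2 / (1 + ((M + 1 : ℕ) : ℝ)) := by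
      have e : 2 / (1 + (M : ℝ)) - 2 / (1 + ((M + 1 : ℕ) : ℝ)) =
          2 / ((1 + (M : ℝ)) * (2 + (M : ℝ))) := by
        push_cast
        field_simp
        ring
      rw [e, div_le_div_iff₀ (by positivity) (by positivity)]
      nlinarith
    linarith

private lemma tail {T : ℝ} (hT : 0 < T) (M : ℕ) (S : Finset ℕ) (hS : ∀ k ∈ S, k < M)
    (h : ∀ k ∈ S, T ≤ 1 + (k : ℝ)) : ∑ k ∈ S, 1 / (1 + (k : ℝ)) ^ 2 ≤ 2 / T := by
  rcases S.eq_empty_or_nonempty with he | hne
  · rw [he, sum_empty]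
    positivity
  · have hK := S.min'_mem hne
    set K := S.min' hne with hKd
    have h1 : S ⊆ Ico K M := by
      intro k hk
      rw [mem_Ico]
      exact ⟨S.min'_le k hk, hS k hk⟩
    have h2 : ∑ k ∈ S, 1 / (1 + (k : ℝ)) ^ 2 ≤ ∑ k ∈ Ico K M, 1 / (1 + (k : ℝ)) ^ 2 :=
      sum_le_sum_of_subset_of_nonneg h1 fun k _ _ => by positivity
    have h3 := tele K M (hS K hK).le
    have h4 : 0 ≤ 2 / (1 + (M : ℝ)) := by positivity
    have h5 : 2 / (1 + (K : ℝ)) ≤ 2 / T := by
      apply div_le_div_of_nonneg_left (by norm_num) hT (h K hK)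
    linarith

/-- the shifted terms -/
private noncomputable def ff (j : ℕ) : ℝ := (Real.log 2 * ((j : ℝ) + 1)) ^ (-(4 / 3 : ℝ))

private lemma ff_nonneg (j : ℕ) : 0 ≤ ff j := by
  have := Real.log_pos (show (1 : ℝ) < 2 by norm_num)
  unfold ff
  positivity

private lemma ff_summable : Summable ff := by
  have h0 := Real.log_pos (show (1 : ℝ) < 2 by norm_num)
  have h1 : Summable fun n : ℕ => ((n : ℝ) ^ (4 / 3 : ℝ))⁻¹ :=
    Real.summable_nat_rpow_inv.2 (by norm_num)
  have h2 := ((summable_nat_add_iff 1).2 h1).mul_left (Real.log 2 ^ (-(4 / 3 : ℝ)))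
  refine h2.congr fun j => ?_
  unfold ff
  rw [Real.mul_rpow h0.le (by positivity), Real.rpow_neg (x := (j : ℝ) + 1) (by positivity)]
  push_cast
  rfl

/-- **Module SUM.** -/
theorem hSUM : StSUM := by
  have key : ∀ a : ℝ, 0 ≤ a → a ≤ 4 / 3 → ∃ C : ℝ, 0 < C ∧ ∀ N : ℕ, 1 ≤ N →
      ∑ k ∈ (range (N + 1)).filter (fun k : ℕ =>
          Real.exp (Real.log N ^ (2 / 3 : ℝ)) ≤ 2 ^ (k + 1) ∧ 2 ^ k ≤ N),
        (1 + Real.log N - k * Real.log 2) ^ (-a) / (1 + (k : ℝ)) ^ 2 ≤
          C * (1 + Real.log N) ^ (-(a + 2 / 3)) := by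
    intro a ha0 ha1
    have hl2 : 0 < Real.log 2 := Real.log_pos (by norm_num)
    have hl21 : Real.log 2 ≤ 1 := by
      have := Real.log_two_lt_d9
      linarith
    set D : ℝ := ∑' j, ff j with hD
    have hD0 : 0 ≤ D := tsum_nonneg ff_nonneg
    refine ⟨16 + 4 * D, by positivity, ?_⟩
    intro N hN
    have hN0 : (0 : ℝ) < (N : ℝ) := by exact_mod_cast hN
    set L : ℝ := Real.log N with hL
    have hL0 : 0 ≤ L := Real.log_nonneg (by exact_mod_cast hN)
    set u : ℝ := 1 + L with hu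
    have hu1 : 1 ≤ u := by linarith
    have hu0 : 0 < u := by linarith
    set S := (range (N + 1)).filter (fun k : ℕ =>
      Real.exp (L ^ (2 / 3 : ℝ)) ≤ 2 ^ (k + 1) ∧ 2 ^ k ≤ N) with hS
    set K0 : ℕ := Nat.log 2 N with hK0
    have hpow : ∀ k : ℕ, 2 ^ k ≤ N → (k : ℝ) * Real.log 2 ≤ L := by
      intro k hk
      rw [← Real.log_pow, hL]
      apply Real.log_le_log (by positivity)
      exact_mod_cast hk
    have hK0L : (K0 : ℝ) * Real.log 2 ≤ L := hpow K0 (Nat.pow_log_le_self 2 (by omega))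
    have hSk : ∀ k ∈ S, Real.exp (L ^ (2 / 3 : ℝ)) ≤ 2 ^ (k + 1) ∧ 2 ^ k ≤ N := by
      intro k hk
      rw [hS, mem_filter] at hk
      exact hk.2
    have hSK : ∀ k ∈ S, k ≤ K0 := fun k hk => Nat.le_log_of_pow_le (by norm_num) (hSk k hk).2
    have hSM : ∀ k ∈ S, k < N + 1 := by
      intro k hk
      rw [hS, mem_filter, mem_range] at hk
      exact hk.1
    -- the lower bound for `1 + k`
    set T : ℝ := u ^ (2 / 3 : ℝ) / 2 with hT
    have hT0 : 0 < T := by positivity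
    have hTk : ∀ k ∈ S, T ≤ 1 + (k : ℝ) := by
      intro k hk
      have h1 : L ^ (2 / 3 : ℝ) ≤ 1 + (k : ℝ) := by
        have h2 := (Real.le_log_iff_exp_le (by positivity)).2 (hSk k hk).1
        rw [Real.log_pow] at h2
        push_cast at h2
        have hk0 : (0 : ℝ) ≤ (k : ℝ) := Nat.cast_nonneg _
        nlinarith
      have h2 : u ^ (2 / 3 : ℝ) ≤ 1 + L ^ (2 / 3 : ℝ) := by
        have := Real.rpow_add_le_add_rpow (a := 1) (b := L) (p := 2 / 3) (by norm_num) hL0
          (by norm_num) (by norm_num)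
        rwa [Real.one_rpow] at this
      have hk0 : (0 : ℝ) ≤ (k : ℝ) := Nat.cast_nonneg _
      rw [hT]
      linarith
    -- the values
    have hv1 : ∀ k ∈ S, 1 ≤ u - k * Real.log 2 := by
      intro k hk
      have := hpow k (hSk k hk).2
      linarith
    have hvsum : ∑ k ∈ S, (u - k * Real.log 2) ^ (-(4 / 3 : ℝ)) ≤ D := by
      have h1 : ∀ k ∈ S, (u - k * Real.log 2) ^ (-(4 / 3 : ℝ)) ≤ ff (K0 - k) := by
        intro k hk
        unfold ff
        have hkK := hSK k hk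
        apply Real.rpow_le_rpow_of_nonpos (by positivity) _ (by norm_num)
        rw [Nat.cast_sub hkK]
        nlinarith
      have h2 : S ⊆ range (K0 + 1) := by
        intro k hk
        have := hSK k hk
        rw [mem_range]
        omega
      calc ∑ k ∈ S, (u - k * Real.log 2) ^ (-(4 / 3 : ℝ)) ≤ ∑ k ∈ S, ff (K0 - k) := sum_le_sum h1
        _ ≤ ∑ k ∈ range (K0 + 1), ff (K0 - k) :=
            sum_le_sum_of_subset_of_nonneg h2 fun k _ _ => ff_nonneg _
        _ = ∑ j ∈ range (K0 + 1), ff j := by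
            have := sum_range_reflect ff (K0 + 1)
            simpa using this
        _ ≤ D := ff_summable.sum_le_tsum _ fun j _ => ff_nonneg j
    have hterm : ∀ k ∈ S, (u - k * Real.log 2) ^ (-a) / (1 + (k : ℝ)) ^ 2 ≤
        4 * u ^ (-a) * (1 / (1 + (k : ℝ)) ^ 2) +
          4 * u ^ (-(a + 2 / 3)) * (u - k * Real.log 2) ^ (-(4 / 3 : ℝ)) := by
      intro k hk
      have hv := hv1 k hk
      have hk0 : (0 : ℝ) ≤ (k : ℝ) := Nat.cast_nonneg _
      set v : ℝ := u - k * Real.log 2 with hvd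
      have hv0 : 0 < v := by linarith
      have p1 : 0 ≤ 4 * u ^ (-a) * (1 / (1 + (k : ℝ)) ^ 2) := by positivity
      have p2 : 0 ≤ 4 * u ^ (-(a + 2 / 3)) * v ^ (-(4 / 3 : ℝ)) := by positivity
      by_cases hc : (k : ℝ) * Real.log 2 ≤ u / 2
      · have h1 : v ^ (-a) ≤ (u / 2) ^ (-a) :=
          Real.rpow_le_rpow_of_nonpos (by positivity) (by linarith) (by linarith)
        have h2 : (u / 2) ^ (-a) ≤ 4 * u ^ (-a) := by
          rw [div_eq_mul_inv, Real.mul_rpow hu0.le (by norm_num), Real.inv_rpow (by norm_num),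
            Real.rpow_neg (x := (2 : ℝ)) (by norm_num), inv_inv, mul_comm]
          apply mul_le_mul_of_nonneg_right _ (by positivity)
          calc (2 : ℝ) ^ a ≤ 2 ^ (2 : ℝ) :=
                Real.rpow_le_rpow_of_exponent_le (by norm_num) (by linarith)
            _ = 4 := by norm_num
        have h3 : v ^ (-a) / (1 + (k : ℝ)) ^ 2 ≤ 4 * u ^ (-a) * (1 / (1 + (k : ℝ)) ^ 2) := by
          rw [div_eq_mul_one_div]
          exact mul_le_mul_of_nonneg_right (h1.trans h2) (by positivity)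
        linarith
      · push Not at hc
        have hku : u / 2 ≤ 1 + (k : ℝ) := by nlinarith
        have h1 : 1 / (1 + (k : ℝ)) ^ 2 ≤ 4 * u ^ (-(2 : ℝ)) := by
          rw [Real.rpow_neg hu0.le, ← div_eq_mul_inv]
          have e : u ^ (2 : ℝ) = u ^ 2 := by
            rw [← Real.rpow_natCast]
            norm_num
          rw [e, div_le_div_iff₀ (by positivity) (by positivity)]
          nlinarith
        have h2 : v ^ (-a) ≤ v ^ (-(4 / 3 : ℝ)) * u ^ (4 / 3 - a) := by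
          have e : -a = -(4 / 3 : ℝ) + (4 / 3 - a) := by ring
          rw [e, Real.rpow_add hv0]
          apply mul_le_mul_of_nonneg_left _ (by positivity)
          apply Real.rpow_le_rpow hv0.le _ (by linarith)
          have : 0 ≤ (k : ℝ) * Real.log 2 := by positivity
          linarith
        have e2 : u ^ (-(a + 2 / 3)) = u ^ (4 / 3 - a) * u ^ (-(2 : ℝ)) := by
          rw [← Real.rpow_add hu0]
          congr 1
          ring
        have h3 : v ^ (-a) / (1 + (k : ℝ)) ^ 2 ≤ 4 * u ^ (-(a + 2 / 3)) * v ^ (-(4 / 3 : ℝ)) := by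
          rw [div_eq_mul_one_div, e2]
          calc v ^ (-a) * (1 / (1 + (k : ℝ)) ^ 2)
              ≤ (v ^ (-(4 / 3 : ℝ)) * u ^ (4 / 3 - a)) * (4 * u ^ (-(2 : ℝ))) :=
                mul_le_mul h2 h1 (by positivity) (by positivity)
            _ = _ := by ring
        linarith
    have htail := tail hT0 (N + 1) S hSM hTk
    have hT2 : 2 / T = 4 * u ^ (-(2 / 3 : ℝ)) := by
      rw [hT, Real.rpow_neg hu0.le]
      field_simp
      norm_num
    rw [hT2] at htail
    have e3 : u ^ (-(a + 2 / 3)) = u ^ (-a) * u ^ (-(2 / 3 : ℝ)) := by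
      rw [← Real.rpow_add hu0]
      congr 1
      ring
    calc ∑ k ∈ S, (u - k * Real.log 2) ^ (-a) / (1 + (k : ℝ)) ^ 2
        ≤ ∑ k ∈ S, (4 * u ^ (-a) * (1 / (1 + (k : ℝ)) ^ 2) +
          4 * u ^ (-(a + 2 / 3)) * (u - k * Real.log 2) ^ (-(4 / 3 : ℝ))) := sum_le_sum hterm
      _ = 4 * u ^ (-a) * ∑ k ∈ S, 1 / (1 + (k : ℝ)) ^ 2 +
          4 * u ^ (-(a + 2 / 3)) * ∑ k ∈ S, (u - k * Real.log 2) ^ (-(4 / 3 : ℝ)) := by
          rw [sum_add_distrib, mul_sum, mul_sum]
      _ ≤ 4 * u ^ (-a) * (4 * u ^ (-(2 / 3 : ℝ))) + 4 * u ^ (-(a + 2 / 3)) * D :=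
          add_le_add (mul_le_mul_of_nonneg_left htail (by positivity))
            (mul_le_mul_of_nonneg_left hvsum (by positivity))
      _ = (16 + 4 * D) * u ^ (-(a + 2 / 3)) := by
          rw [e3]
          ring
  rintro a (rfl | rfl | rfl)
  · exact key 0 le_rfl (by norm_num)
  · exact key (2 / 3) (by norm_num) (by norm_num)
  · exact key (4 / 3) (by norm_num) le_rfl

end Pool.Agent.Helper27.PS
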